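import Pool.Agent.H88.Lcap5

open Pool.Agent.H88.Lcap

theorem Pool.Agent.Results.MP_42a974_an.Broken.result (n : ℕ) (hn : n = 3 ∨ n = 4) :
    ∃ K : Set (EuclideanSpace ℝ (Fin n)), IsCompact K ∧ Metric.diam K = 2 ∧
      capLog (Metric.closedBall (0 : EuclideanSpace ℝ (Fin n)) 1) < capLog K := by
  rcases hn with rfl | rfl
  · exact main ok3
  · exact main ok4
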